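import Pool.Agent.Q161.ESJ.Stm1
import Pool.Agent.Q161.ESG.SGP

/-! # ESJ, job SGP: the properties of the signs of the points of order two -/

set_option autoImplicit false
set_option linter.unusedVariables false

namespace Pool.Agent.Q79.ESJ

open Polynomial Ideal
open Pool.Agent.Y723.HJ (CR OddM HF nm cl val del mi CC bar pf Rt Gd)
open Pool.Agent.Q150.ESG (Rt1 Gd1 bar_top cl_top)
open Pool.Agent.Q161.ESJ
open Pool.Agent.Q161.ESG (tcl tcl_two tcl_rt roots_prod prod_all two_prod eq_one_of_rt)

section sign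

variable {F : Type} [Field F] {H : HP F} {E : Type} [Field E] [Algebra F E]

lemma rt_sgp [HF (pol H E)] {T : Jac H E} {x s : E} :
    Rt1 (f := pol H E) x (T : ClassGroup (CR (pol H E))) ⊤ s ↔ SgP H E T x s := by
  constructor
  · rintro ⟨J, z, ⟨h1, h2⟩, h3, h4, h5, h6⟩
    refine ⟨J, z, h1, h2, h3, h4, ?_, h6⟩
    rw [bar_top, Ideal.mul_top] at h5
    exact h5
  · rintro ⟨J, z, h1, h2, h3, h4, h5, h6⟩
    refine ⟨J, z, ⟨h1, h2⟩, h3, h4, ?_, h6⟩
    rw [bar_top, Ideal.mul_top]
    exact h5

lemma sg_rt [Infinite E] [HF (pol H E)] {T : Jac H E} (hT : T + T = 0) {x : E}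
    (hx : (pol H E).eval x = 0) :
    Rt1 (f := pol H E) x (T : ClassGroup (CR (pol H E))) ⊤ (sg H T x) := by
  have h1 : ∀ T' : ClassGroup (CR (pol H E)), T' * T' = 1 →
      cl (⊤ : Ideal (CR (pol H E))) = T' ^ 2 := by
    intro T' h
    rw [cl_top, pow_two, h]
  obtain ⟨s, hs⟩ := Rt1.exists (f := pol H E) hx T top_ne_bot (h1 T hT)
  have hex : ∃ s, SgP H E T x s := ⟨s, rt_sgp.1 hs⟩
  unfold sg
  rw [dif_pos hex]
  exact rt_sgp.2 hex.choose_spec

end sign

section jac

variable {F : Type} [Field F] {H : HP F} {E : Type} [Field E] [Algebra F E]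

/-- the point given by the zero `x` -/
noncomputable def tx {F : Type} [Field F] (H : HP F) (E : Type) [Field E] [Algebra F E] [HF (pol H E)] (x : E) :
    Jac H E :=
  (tcl (pol H E) x : ClassGroup (CR (pol H E)))

variable [HF (pol H E)] [Infinite E]

lemma sg_of {T : Jac H E} (hT : T + T = 0) {x : E} (hx : (pol H E).eval x = 0) {s : E}
    (h : Rt1 (f := pol H E) x (T : ClassGroup (CR (pol H E))) ⊤ s) : sg H T x = s :=
  Rt1.unique hx top_ne_bot (sg_rt hT hx) h

lemma sg_sq {T : Jac H E} (hT : T + T = 0) {x : E} (hx : (pol H E).eval x = 0) :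
    sg H T x = 1 ∨ sg H T x = -1 := by
  have h1 := Rt1.sq hx (by exact top_ne_bot) (sg_rt hT hx)
  have h2 : del x (⊤ : Ideal (CR (pol H E))) = 1 := by
    unfold del
    rw [Pool.Agent.Y723.HJ.nm_top]
    simp
  rw [h2] at h1
  have h3 : (sg H T x - 1) * (sg H T x + 1) = 0 := by linear_combination h1
  rcases mul_eq_zero.1 h3 with h | h
  · left; linear_combination h
  · right; linear_combination h

lemma sg_add {S T : Jac H E} (hS : S + S = 0) (hT : T + T = 0) {x : E} (hx : (pol H E).eval x = 0) :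
    sg H (S + T) x = sg H S x * sg H T x := by
  have h1 := Rt1.mul hx (sg_rt hS hx) (sg_rt hT hx)
  rw [Ideal.top_mul] at h1
  refine sg_of (by rw [add_add_add_comm, hS, hT, add_zero]) hx h1

lemma sg_zero {x : E} (hx : (pol H E).eval x = 0) : sg H (0 : Jac H E) x = 1 := by
  have h0 : (0 : Jac H E) + 0 = 0 := add_zero 0
  have h1 := sg_add (H := H) h0 h0 hx
  rw [h0] at h1
  rcases sg_sq (H := H) h0 hx with h | h
  · exact h
  · rw [h] at h1
    rw [h, h1]
    ring

lemma tx_two {x : E} (hx : (pol H E).eval x = 0) : tx H E x + tx H E x = 0 :=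
  tcl_two (f := pol H E) hx

lemma sg_tx {x y : E} (hx : (pol H E).eval x = 0) (hy : (pol H E).eval y = 0) (hxy : y ≠ x) :
    sg H (tx H E x) y = -1 := sg_of (tx_two hx) hy (tcl_rt hx hy hxy)

open Classical in
lemma sum_two (A : Finset E) (hA : ∀ x ∈ A, (pol H E).eval x = 0) :
    (∑ x ∈ A, tx H E x) + ∑ x ∈ A, tx H E x = 0 := by
  rw [← Finset.sum_add_distrib]
  exact Finset.sum_eq_zero fun x hx => tx_two (hA x hx)

open Classical in
lemma sg_sum (A : Finset E) (hA : ∀ x ∈ A, (pol H E).eval x = 0) {y : E} (hy : (pol H E).eval y = 0) :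
    sg H (∑ x ∈ A, tx H E x) y = ∏ x ∈ A, sg H (tx H E x) y := by
  induction A using Finset.induction_on with
  | empty => rw [Finset.sum_empty, Finset.prod_empty, sg_zero hy]
  | insert x A hx ih =>
    have h1 : ∀ z ∈ A, (pol H E).eval z = 0 := fun z hz => hA z (Finset.mem_insert_of_mem hz)
    rw [Finset.sum_insert hx, Finset.prod_insert hx, ← ih h1]
    exact sg_add (tx_two (hA x (Finset.mem_insert_self x A))) (sum_two A h1) hy

variable [IsAlgClosed E]

lemma root_of {x : E} (hx : x ∈ (pol H E).roots) : (pol H E).eval x = 0 := (mem_roots'.1 hx).2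

open Classical in
lemma root_of' {x : E} (hx : x ∈ (pol H E).roots.toFinset) : (pol H E).eval x = 0 :=
  root_of (Multiset.mem_toFinset.1 hx)

open Classical in
lemma card_odd : Odd (pol H E).roots.toFinset.card := by
  have h2 : (pol H E).roots.Nodup := nodup_roots (HF.sep (f := pol H E))
  rw [Multiset.toFinset_card_of_nodup h2]
  have h3 := (IsAlgClosed.splits (pol H E)).natDegree_eq_card_roots
  rw [← h3]
  exact (HF.toOddM (f := pol H E)).odd

open Classical in
lemma sum_all : ∑ x ∈ (pol H E).roots.toFinset, tx H E x = 0 := prod_all (f := pol H E)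

open Classical in
lemma sg_tx_self {x : E} (hx : (pol H E).eval x = 0) : sg H (tx H E x) x = 1 := by
  have hf0 : pol H E ≠ 0 := (HF.toOddM (f := pol H E)).monic.ne_zero
  have hmem : x ∈ (pol H E).roots.toFinset := Multiset.mem_toFinset.2 (mem_roots'.2 ⟨hf0, hx⟩)
  have h1 := sg_sum (pol H E).roots.toFinset (fun y hy => root_of' hy) hx
  rw [sum_all, sg_zero hx, ← Finset.mul_prod_erase _ _ hmem] at h1
  have h2 : ∏ y ∈ (pol H E).roots.toFinset.erase x, sg H (tx H E y) x = 1 := by
    rw [Finset.prod_congr rfl fun y hy => sg_tx (root_of' (Finset.mem_of_mem_erase hy)) hx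
      (Finset.ne_of_mem_erase hy).symm, Finset.prod_const, Finset.card_erase_of_mem hmem]
    have h3 := card_odd (H := H) (E := E)
    exact (Nat.Odd.sub_odd h3 odd_one).neg_one_pow
  rw [h2, mul_one] at h1
  exact h1.symm

open Classical in
/-- the sign of the sum over `A` -/
lemma sg_set (A : Finset E) (hA : ∀ x ∈ A, (pol H E).eval x = 0) {y : E} (hy : (pol H E).eval y = 0) :
    sg H (∑ x ∈ A, tx H E x) y = (-1) ^ (A.erase y).card := by
  rw [sg_sum A hA hy]
  by_cases hyA : y ∈ A
  · rw [← Finset.mul_prod_erase _ _ hyA, sg_tx_self hy, one_mul,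
      Finset.prod_congr rfl fun x hx => sg_tx (hA x (Finset.mem_of_mem_erase hx)) hy
      (Finset.ne_of_mem_erase hx).symm, Finset.prod_const]
  · rw [Finset.erase_eq_of_notMem hyA, Finset.prod_congr rfl fun x hx => sg_tx (hA x hx) hy
      (fun h => hyA (h ▸ hx)), Finset.prod_const]

open Classical in
lemma prod_sg {T : Jac H E} (hT : T + T = 0) : ∏ x ∈ (pol H E).roots.toFinset, sg H T x = 1 := by
  obtain ⟨A, hA, hTA⟩ := two_prod (f := pol H E) (T := T) hT
  have hTA' : T = ∑ x ∈ A, tx H E x := hTA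
  have hA' : ∀ x ∈ A, (pol H E).eval x = 0 := fun x hx => root_of' (hA hx)
  rw [hTA', Finset.prod_congr rfl fun y hy => sg_sum A hA' (root_of' hy), Finset.prod_comm]
  refine Finset.prod_eq_one fun x hx => ?_
  rw [← Finset.mul_prod_erase _ _ (hA hx), sg_tx_self (hA' x hx), one_mul,
    Finset.prod_congr rfl fun y hy => sg_tx (hA' x hx) (root_of' (Finset.mem_of_mem_erase hy))
      (Finset.ne_of_mem_erase hy), Finset.prod_const, Finset.card_erase_of_mem (hA hx)]
  exact (Nat.Odd.sub_odd (card_odd (H := H) (E := E)) odd_one).neg_one_pow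

open Classical in
lemma exists_sg [CharZero E] (s : E → E) (hs : ∀ x ∈ (pol H E).roots, s x = 1 ∨ s x = -1)
    (hp : ∏ x ∈ (pol H E).roots.toFinset, s x = 1) :
    ∃ T : Jac H E, T + T = 0 ∧ ∀ x ∈ (pol H E).roots, sg H T x = s x := by
  set A := (pol H E).roots.toFinset.filter (fun x => s x = -1) with hAdef
  have hA' : ∀ x ∈ A, (pol H E).eval x = 0 := fun x hx => root_of' (Finset.mem_filter.1 hx).1
  have hcard : Even A.card := by
    have h1 : ∏ x ∈ (pol H E).roots.toFinset, s x = (-1) ^ A.card := by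
      rw [← Finset.prod_filter_mul_prod_filter_not _ (fun x => s x = -1), ← hAdef,
        Finset.prod_congr rfl fun x hx => (Finset.mem_filter.1 hx).2, Finset.prod_const]
      have h2 : ∏ x ∈ (pol H E).roots.toFinset.filter (fun x => ¬ s x = -1), s x = 1 := by
        refine Finset.prod_eq_one fun x hx => ?_
        obtain ⟨h3, h4⟩ := Finset.mem_filter.1 hx
        rcases hs x (Multiset.mem_toFinset.1 h3) with h5 | h5
        · exact h5
        · exact absurd h5 h4
      rw [h2, mul_one]
    rw [hp] at h1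
    by_contra hodd
    rw [Nat.not_even_iff_odd] at hodd
    rw [hodd.neg_one_pow] at h1
    have h6 : (2 : E) = 0 := by linear_combination h1
    exact two_ne_zero h6
  refine ⟨∑ x ∈ A, tx H E x, sum_two A hA', fun y hy => ?_⟩
  rw [sg_set A hA' (root_of hy)]
  by_cases hyA : y ∈ A
  · have h7 : s y = -1 := (Finset.mem_filter.1 hyA).2
    rw [h7, Finset.card_erase_of_mem hyA]
    have h8 : 0 < A.card := Finset.card_pos.2 ⟨y, hyA⟩
    exact (Nat.Even.sub_odd h8 hcard odd_one).neg_one_pow
  · rw [Finset.erase_eq_of_notMem hyA, hcard.neg_one_pow]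
    rcases hs y hy with h5 | h5
    · exact h5.symm
    · exact absurd (Finset.mem_filter.2 ⟨Multiset.mem_toFinset.2 hy, h5⟩) hyA

end jac

theorem sgp : S_SGP := by
  intro F _ _ H E _ _ _ _
  have hch : CharZero E := charZero_of_injective_algebraMap (algebraMap F E).injective
  refine ⟨fun T hT x hx => sg_sq hT (root_of hx), fun S T hS hT x hx => sg_add hS hT (root_of hx), ?_,
    fun s hs hp => exists_sg s hs (by convert hp), fun T hT => by convert prod_sg hT, ?_⟩
  · intro T hT h
    refine eq_one_of_rt (f := pol H E) (T := T) hT fun x hx => ?_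
    have := sg_rt hT (root_of hx)
    rwa [h x hx] at this
  · intro E' _ _ _ _ φ T hT x hx
    have hch' : CharZero E' := charZero_of_injective_algebraMap (algebraMap F E').injective
    have hx' := root_of hx
    have h1 : (pol H E').eval (φ x) = 0 := by
      rw [← pol_map H φ, eval_map]
      have h2 := eval₂_at_apply (φ : E →+* E') x (p := pol H E)
      rw [hx', map_zero] at h2
      exact h2
    have h2 := Rt1.map (φ : E →+* E') (pol_map H φ) (sg_rt hT hx')
    rw [Ideal.map_top] at h2
    refine sg_of ?_ h1 h2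
    rw [← pointMap_add, hT, pointMap_zero]

end Pool.Agent.Q79.ESJ
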